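import Pool.Agent.E8helper16.TP.StmC

set_option autoImplicit false

/-!
# Project TP (helper16), MP_a1f59e_nt: piece TEL, telescoping
-/

namespace Pool.Agent.E8helper56.TP

open Finset
open Pool.Agent.E8helper16.TP
open Pool.Agent.H807R2.Dav (ee)

theorem tt_swap12 (N : ℕ) (c₁ c₂ c₃ n : ℤ) (a b c : ℕ → ℂ) :
    TT N c₁ c₂ c₃ n a b c = TT N c₂ c₁ c₃ n b a c := by
  unfold TT
  rw [Finset.sum_comm]
  refine Finset.sum_congr rfl fun x _ => Finset.sum_congr rfl fun y _ =>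
    Finset.sum_congr rfl fun w _ => ?_
  have h1 : c₁ * (y : ℤ) + c₂ * (x : ℤ) + c₃ * (w : ℤ) = c₂ * (x : ℤ) + c₁ * (y : ℤ) + c₃ * (w : ℤ) := by
    ring
  rw [h1, mul_comm (a y)]

theorem tt_swap23 (N : ℕ) (c₁ c₂ c₃ n : ℤ) (a b c : ℕ → ℂ) :
    TT N c₁ c₂ c₃ n a b c = TT N c₁ c₃ c₂ n a c b := by
  unfold TT
  refine Finset.sum_congr rfl fun x _ => ?_
  rw [Finset.sum_comm]
  refine Finset.sum_congr rfl fun y _ => Finset.sum_congr rfl fun w _ => ?_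
  have h1 : c₁ * (x : ℤ) + c₂ * (w : ℤ) + c₃ * (y : ℤ) = c₁ * (x : ℤ) + c₃ * (y : ℤ) + c₂ * (w : ℤ) := by
    ring
  rw [h1, mul_right_comm]

theorem tt_sub (N : ℕ) (c₁ c₂ c₃ n : ℤ) (a a' b c : ℕ → ℂ) :
    TT N c₁ c₂ c₃ n a b c - TT N c₁ c₂ c₃ n a' b c =
      TT N c₁ c₂ c₃ n (fun x => a x - a' x) b c := by
  unfold TT
  rw [← Finset.sum_sub_distrib]
  refine Finset.sum_congr rfl fun x _ => ?_
  rw [← Finset.sum_sub_distrib]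
  refine Finset.sum_congr rfl fun y _ => ?_
  rw [← Finset.sum_sub_distrib]
  refine Finset.sum_congr rfl fun w _ => ?_
  by_cases h : c₁ * (x : ℤ) + c₂ * (y : ℤ) + c₃ * (w : ℤ) = n
  · rw [if_pos h, if_pos h, if_pos h]
    ring
  · rw [if_neg h, if_neg h, if_neg h, sub_zero]

theorem sqrt_mul_le {x y L : ℝ} (hL : 0 ≤ L) (hx : x ≤ L) (hy : y ≤ L) : √x * √y ≤ L := by
  calc √x * √y ≤ √L * √L := by
        gcongr
    _ = L := Real.mul_self_sqrt hL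

theorem t_TEL (hCIR : S_CIR) : S_TEL := by
  intro N c₁ c₂ c₃ n h1 h2 h3 F G A L hL hA hF hG
  have hA0 : 0 ≤ A := (norm_nonneg _).trans (hA 0)
  have key : ∀ (d₁ d₂ d₃ : ℤ), d₁ ≠ 0 → d₂ ≠ 0 → d₃ ≠ 0 → ∀ b c : ℕ → ℂ,
      ∑ x ∈ Icc 1 N, ‖b x‖ ^ 2 ≤ L → ∑ x ∈ Icc 1 N, ‖c x‖ ^ 2 ≤ L →
      ‖TT N d₁ d₂ d₃ n (fun x => F x - G x) b c‖ ≤ A * L := by
    intro d₁ d₂ d₃ hd1 hd2 hd3 b c hb hc
    refine (hCIR N d₁ d₂ d₃ n hd1 hd2 hd3 (fun x => F x - G x) b c A hA).trans ?_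
    exact mul_le_mul_of_nonneg_left (sqrt_mul_le hL hb hc) hA0
  have e : TT N c₁ c₂ c₃ n F F F - TT N c₁ c₂ c₃ n G G G =
      TT N c₁ c₂ c₃ n (fun x => F x - G x) F F + TT N c₂ c₁ c₃ n (fun x => F x - G x) G F +
        TT N c₃ c₁ c₂ n (fun x => F x - G x) G G := by
    have e1 : TT N c₁ c₂ c₃ n G F F - TT N c₁ c₂ c₃ n G G F =
        TT N c₂ c₁ c₃ n (fun x => F x - G x) G F := by
      rw [tt_swap12 N c₁ c₂ c₃ n G F F, tt_swap12 N c₁ c₂ c₃ n G G F, tt_sub]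
    have e2 : TT N c₁ c₂ c₃ n G G F - TT N c₁ c₂ c₃ n G G G =
        TT N c₃ c₁ c₂ n (fun x => F x - G x) G G := by
      rw [tt_swap23 N c₁ c₂ c₃ n G G F, tt_swap23 N c₁ c₂ c₃ n G G G,
        tt_swap12 N c₁ c₃ c₂ n G F G, tt_swap12 N c₁ c₃ c₂ n G G G, tt_sub]
    rw [← tt_sub, ← e1, ← e2]
    ring
  rw [e]
  calc _ ≤ A * L + A * L + A * L := by
        refine (norm_add_le _ _).trans (add_le_add ((norm_add_le _ _).trans (add_le_add ?_ ?_)) ?_)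
        · exact key c₁ c₂ c₃ h1 h2 h3 F F hF hF
        · exact key c₂ c₁ c₃ h2 h1 h3 G F hG hF
        · exact key c₃ c₁ c₂ h3 h1 h2 G G hG hG
    _ = _ := by ring

end Pool.Agent.E8helper56.TP
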