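import Pool.Agent.E8helper16.TP.StmC

set_option autoImplicit false

/-!
# Project TP (helper16), MP_a1f59e_nt: piece TTA, reindexing of two sums
-/

namespace Pool.Agent.E8helper56.TP

open Finset
open Pool.Agent.E8helper16.TP

/-- the triples which solve the equation -/
def sol (N : ℕ) (c₁ c₂ c₃ n : ℤ) : Finset (ℕ × ℕ × ℕ) :=
  (Icc 1 N ×ˢ Icc 1 N ×ˢ Icc 1 N).filter (fun t => c₁ * (t.1 : ℤ) + c₂ * (t.2.1 : ℤ) + c₃ * (t.2.2 : ℤ) = n)

theorem tt_sol (N : ℕ) (c₁ c₂ c₃ n : ℤ) (a b c : ℕ → ℂ) :
    TT N c₁ c₂ c₃ n a b c = ∑ t ∈ sol N c₁ c₂ c₃ n, a t.1 * b t.2.1 * c t.2.2 := by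
  unfold TT sol
  rw [Finset.sum_filter, Finset.sum_product]
  refine Finset.sum_congr rfl fun x _ => ?_
  rw [Finset.sum_product]

theorem mem_sol {N : ℕ} {c₁ c₂ c₃ n : ℤ} {t : ℕ × ℕ × ℕ} : t ∈ sol N c₁ c₂ c₃ n ↔
    ((1 ≤ t.1 ∧ t.1 ≤ N) ∧ (1 ≤ t.2.1 ∧ t.2.1 ≤ N) ∧ (1 ≤ t.2.2 ∧ t.2.2 ≤ N)) ∧
      c₁ * (t.1 : ℤ) + c₂ * (t.2.1 : ℤ) + c₃ * (t.2.2 : ℤ) = n := by
  unfold sol
  rw [Finset.mem_filter, Finset.mem_product, Finset.mem_product, Finset.mem_Icc, Finset.mem_Icc,
    Finset.mem_Icc]

theorem mem_tri {k n : ℕ} {r : ℕ × ℕ} : r ∈ tri k n ↔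
    ((1 ≤ r.1 ∧ r.1 ≤ n) ∧ (1 ≤ r.2 ∧ r.2 ≤ n)) ∧ r.1 + k * r.2 ≤ n := by
  unfold tri
  rw [Finset.mem_filter, Finset.mem_product, Finset.mem_Icc, Finset.mem_Icc]

theorem t_TTA : S_TTA := by
  refine ⟨fun N n hn a b c => ?_, fun N a => ?_⟩
  · rw [tt_sol]
    refine Finset.sum_nbij' (fun t => (t.1, t.2.1)) (fun r => (r.1, r.2, n - r.1 - r.2)) ?_ ?_ ?_ ?_ ?_
    · intro t ht
      rw [mem_sol] at ht
      rw [mem_tri]
      obtain ⟨x, y, w⟩ := t
      simp only at ht ⊢
      omega
    · intro r hr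
      rw [mem_tri] at hr
      rw [mem_sol]
      obtain ⟨x, y⟩ := r
      simp only at hr ⊢
      omega
    · intro t ht
      rw [mem_sol] at ht
      obtain ⟨x, y, w⟩ := t
      simp only at ht ⊢
      have : n - x - y = w := by omega
      rw [this]
    · intro r hr
      rfl
    · intro t ht
      rw [mem_sol] at ht
      obtain ⟨x, y, w⟩ := t
      simp only at ht ⊢
      have : n - x - y = w := by omega
      rw [this]
  · rw [tt_sol]
    rw [← Finset.sum_filter_add_sum_filter_not (sol N 1 (-2) 1 0) (fun t => t.1 < t.2.2)]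
    rw [← Finset.sum_filter_add_sum_filter_not ((sol N 1 (-2) 1 0).filter (fun t => ¬ t.1 < t.2.2))
      (fun t => t.2.2 < t.1)]
    have e1 : ∑ t ∈ (sol N 1 (-2) 1 0).filter (fun t => t.1 < t.2.2), a t.1 * a t.2.1 * a t.2.2 =
        ∑ r ∈ tri 2 N, a r.1 * a (r.1 + r.2) * a (r.1 + 2 * r.2) := by
      refine Finset.sum_nbij' (fun t => (t.1, t.2.1 - t.1)) (fun r => (r.1, r.1 + r.2, r.1 + 2 * r.2))
        ?_ ?_ ?_ ?_ ?_
      · intro t ht
        rw [Finset.mem_filter, mem_sol] at ht
        rw [mem_tri]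
        obtain ⟨x, y, w⟩ := t
        simp only at ht ⊢
        omega
      · intro r hr
        rw [mem_tri] at hr
        rw [Finset.mem_filter, mem_sol]
        obtain ⟨x, y⟩ := r
        simp only at hr ⊢
        push_cast
        omega
      · intro t ht
        rw [Finset.mem_filter, mem_sol] at ht
        obtain ⟨x, y, w⟩ := t
        simp only at ht ⊢
        have h1 : x + (y - x) = y := by omega
        have h2 : x + 2 * (y - x) = w := by omega
        rw [h1, h2]
      · intro r hr
        obtain ⟨x, y⟩ := r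
        simp only [Nat.add_sub_cancel_left]
      · intro t ht
        rw [Finset.mem_filter, mem_sol] at ht
        obtain ⟨x, y, w⟩ := t
        simp only at ht ⊢
        have h1 : x + (y - x) = y := by omega
        have h2 : x + 2 * (y - x) = w := by omega
        rw [h1, h2]
    have e2 : ∑ t ∈ ((sol N 1 (-2) 1 0).filter (fun t => ¬ t.1 < t.2.2)).filter
          (fun t => t.2.2 < t.1), a t.1 * a t.2.1 * a t.2.2 =
        ∑ r ∈ tri 2 N, a r.1 * a (r.1 + r.2) * a (r.1 + 2 * r.2) := by
      refine Finset.sum_nbij' (fun t => (t.2.2, t.2.1 - t.2.2))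
        (fun r => (r.1 + 2 * r.2, r.1 + r.2, r.1)) ?_ ?_ ?_ ?_ ?_
      · intro t ht
        rw [Finset.mem_filter, Finset.mem_filter, mem_sol] at ht
        rw [mem_tri]
        obtain ⟨x, y, w⟩ := t
        simp only at ht ⊢
        omega
      · intro r hr
        rw [mem_tri] at hr
        rw [Finset.mem_filter, Finset.mem_filter, mem_sol]
        obtain ⟨x, y⟩ := r
        simp only at hr ⊢
        push_cast
        omega
      · intro t ht
        rw [Finset.mem_filter, Finset.mem_filter, mem_sol] at ht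
        obtain ⟨x, y, w⟩ := t
        simp only at ht ⊢
        have h1 : w + (y - w) = y := by omega
        have h2 : w + 2 * (y - w) = x := by omega
        rw [h1, h2]
      · intro r hr
        obtain ⟨x, y⟩ := r
        simp only [Nat.add_sub_cancel_left]
      · intro t ht
        rw [Finset.mem_filter, Finset.mem_filter, mem_sol] at ht
        obtain ⟨x, y, w⟩ := t
        simp only at ht ⊢
        have h1 : w + (y - w) = y := by omega
        have h2 : w + 2 * (y - w) = x := by omega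
        rw [h1, h2]
        ring
    have e3 : ∑ t ∈ ((sol N 1 (-2) 1 0).filter (fun t => ¬ t.1 < t.2.2)).filter
          (fun t => ¬ t.2.2 < t.1), a t.1 * a t.2.1 * a t.2.2 =
        ∑ x ∈ Icc 1 N, a x ^ 3 := by
      refine Finset.sum_nbij' (fun t => t.1) (fun x => (x, x, x)) ?_ ?_ ?_ ?_ ?_
      · intro t ht
        rw [Finset.mem_filter, Finset.mem_filter, mem_sol] at ht
        rw [Finset.mem_Icc]
        exact ht.1.1.1.1
      · intro x hx
        rw [Finset.mem_Icc] at hx
        rw [Finset.mem_filter, Finset.mem_filter, mem_sol]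
        simp only
        omega
      · intro t ht
        rw [Finset.mem_filter, Finset.mem_filter, mem_sol] at ht
        obtain ⟨x, y, w⟩ := t
        simp only at ht ⊢
        have h1 : y = x := by omega
        have h2 : w = x := by omega
        rw [h1, h2]
      · intro x _
        rfl
      · intro t ht
        rw [Finset.mem_filter, Finset.mem_filter, mem_sol] at ht
        obtain ⟨x, y, w⟩ := t
        simp only at ht ⊢
        have h1 : y = x := by omega
        have h2 : w = x := by omega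
        rw [h1, h2]
        ring
    rw [e1, e2, e3]
    ring

end Pool.Agent.E8helper56.TP
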